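import Mathlib

/-!
# t-embeddings: definitions
-/

set_option autoImplicit false

open Set Topology Filter

namespace Pool.Agent.TH567.TE

/-- `C_p(Z)`: the continuous real functions on `Z` with the topology of pointwise convergence -/
abbrev Cp (Z : Type) [TopologicalSpace Z] : Type := {f : Z → ℝ // Continuous f}

/-- `Y` is t-embedded in `Z`: there is a continuous extender `C_p(Y) → C_p(Z)` -/
def TEmb {Z : Type} [TopologicalSpace Z] (Y : Set Z) : Prop :=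
  ∃ φ : Cp Y → Cp Z, Continuous φ ∧ ∀ (f : Cp Y) (y : Y), (φ f).1 y.1 = f.1 y

/-- `Y` is t-embedded in `Z` by an extender which multiplies bounds by at most `C` -/
def TEmbB {Z : Type} [TopologicalSpace Z] (Y : Set Z) (C : ℝ) : Prop :=
  ∃ φ : Cp Y → Cp Z, Continuous φ ∧ (∀ (f : Cp Y) (y : Y), (φ f).1 y.1 = f.1 y) ∧
    ∀ (f : Cp Y) (M : ℝ), 0 ≤ M → (∀ y, |f.1 y| ≤ M) → ∀ z, |(φ f).1 z| ≤ C * M

/-- The axioms on a compact space `X` with a point `inf` and closed tails `T l`, `l ∈ O`, which are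
retracts of `X` by the maps `R l`. -/
structure Ax (X : Type) [TopologicalSpace X] (O : Type) [LinearOrder O] (inf : X)
    (T : O → Set X) (R : O → X → X) : Prop where
  closedT : ∀ l, IsClosed (T l)
  antiT : ∀ l l', l ≤ l' → T l' ⊆ T l
  memT : ∀ l, inf ∈ T l
  neT : ∀ l, ∃ x ∈ T l, x ≠ inf
  nhdsT : ∀ U ∈ 𝓝 inf, ∃ l, T l ⊆ U
  countT : ∀ l, (T l)ᶜ.Countable
  cofT : ∀ s : ℕ → O, ∃ l, ∀ n, s n ≤ l
  contR : ∀ l, Continuous (R l)
  R_mem : ∀ l x, R l x ∈ T l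
  R_fix : ∀ l, ∀ x ∈ T l, R l x = x
  closed1 : ∀ B : Set X, IsClosed B → ∃ l, T l ⊆ B ∨ B ∩ T l ⊆ {inf}
  closed2 : ∀ F : Set (X × X), IsClosed F → ∃ l, (T l ×ˢ T l ⊆ F) ∨
      ∀ p ∈ F, p.1 ∈ T l → p.2 ∈ T l → (p.1 = p.2 ∨ p.1 = inf ∨ p.2 = inf)

end Pool.Agent.TH567.TE
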